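import Pool.Agent.N728.QL.Def

set_option autoImplicit false

/-! # QL/BAD: the bad pairs contribute little -/

namespace Pool.Agent.N630.QL

open Finset Pool.Agent.N728.QL

noncomputable section

/-- the primes in `(w, y]` -/
def Pr (w y : ℕ) : Finset ℕ := (Ioc w y).filter Nat.Prime

lemma mem_Pr {w y p : ℕ} : p ∈ Pr w y ↔ (w < p ∧ p ≤ y) ∧ p.Prime := by
  simp [Pr]

lemma Pr_prime {w y p : ℕ} (h : p ∈ Pr w y) : p.Prime := (mem_Pr.1 h).2

lemma VW_pos (w y : ℕ) : 0 < VW w y := by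
  refine Finset.prod_pos fun p hp => ?_
  have hp' := (mem_filter.1 hp).2
  have : (2 : ℝ) ≤ p := by exact_mod_cast hp'.two_le
  have h1 : 1 / (p : ℝ) ≤ 1 / 2 := one_div_le_one_div_of_le (by norm_num) this
  linarith

lemma lz_nonneg (z : ℕ) (n : ℤ) : 0 ≤ lz z n := by
  unfold lz
  split_ifs
  · exact inv_nonneg.2 (VW_pos 0 z).le
  · exact le_rfl

lemma PP_ne_zero (w y : ℕ) : PP w y ≠ 0 :=
  Finset.prod_ne_zero_iff.2 fun _ hp => (Pr_prime hp).ne_zero

lemma PP_squarefree (w y : ℕ) : Squarefree (PP w y) := by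
  have : ∀ s : Finset ℕ, (∀ p ∈ s, p.Prime) → Squarefree (∏ p ∈ s, p) := by
    intro s
    induction s using Finset.induction_on with
    | empty => intro _; simp
    | insert a s ha ih =>
      intro h
      rw [Finset.prod_insert ha]
      have h1 : Nat.Coprime a (∏ p ∈ s, p) := by
        refine Nat.Coprime.prod_right fun p hp => ?_
        exact (Nat.coprime_primes (h a (mem_insert_self _ _)) (h p (mem_insert_of_mem hp))).2
          (fun e => ha (e ▸ hp))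
      exact (Nat.squarefree_mul h1).2 ⟨(h a (mem_insert_self _ _)).squarefree,
        ih fun p hp => h p (mem_insert_of_mem hp)⟩
  exact this _ fun p hp => Pr_prime hp

lemma PP_primeFactors (w y : ℕ) : (PP w y).primeFactors = Pr w y := by
  unfold PP Pr
  exact Nat.primeFactors_prod fun p hp => (mem_filter.1 hp).2

/-- the divisors which occur -/
def DS (w y M0 : ℕ) : Finset ℕ := (PP w y).divisors.filter (fun d => M0 < d ^ 2 ∧ d ^ 2 ≤ M0 * y ^ 2)

lemma exists_sub (y M0 : ℕ) (h1 : 1 ≤ M0) (P : Finset ℕ) (hP : ∀ p ∈ P, p ≤ y)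
    (h : M0 < (∏ p ∈ P, p) ^ 2) :
    ∃ S ⊆ P, M0 < (∏ p ∈ S, p) ^ 2 ∧ (∏ p ∈ S, p) ^ 2 ≤ M0 * y ^ 2 := by
  induction P using Finset.induction_on with
  | empty => simp at h; omega
  | insert a P ha ih =>
    by_cases hc : M0 < (∏ p ∈ P, p) ^ 2
    · obtain ⟨S, hS, h2, h3⟩ := ih (fun p hp => hP p (mem_insert_of_mem hp)) hc
      exact ⟨S, hS.trans (subset_insert _ _), h2, h3⟩
    · refine ⟨insert a P, subset_rfl, h, ?_⟩
      rw [Finset.prod_insert ha, mul_pow, mul_comm]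
      push Not at hc
      exact Nat.mul_le_mul hc (Nat.pow_le_pow_left (hP a (mem_insert_self _ _)) 2)

lemma exists_DS {w y M0 u : ℕ} (h1 : 1 ≤ M0) (h : M0 < pp w y u ^ 2) :
    ∃ d ∈ DS w y M0, d ∣ u := by
  obtain ⟨S, hS, h2, h3⟩ := exists_sub y M0 h1 (u.primeFactors.filter (fun p => w < p ∧ p ≤ y))
    (fun p hp => (mem_filter.1 hp).2.2) h
  refine ⟨∏ p ∈ S, p, ?_, ?_⟩
  · refine mem_filter.2 ⟨Nat.mem_divisors.2 ⟨?_, PP_ne_zero w y⟩, h2, h3⟩
    refine Finset.prod_dvd_prod_of_subset _ _ _ fun p hp => ?_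
    have := mem_filter.1 (hS hp)
    exact mem_filter.2 ⟨mem_Ioc.2 this.2, Nat.prime_of_mem_primeFactors this.1⟩
  · refine (Finset.prod_dvd_prod_of_subset S u.primeFactors (fun p => p)
      (hS.trans (filter_subset _ _))).trans (Nat.prod_primeFactors_dvd u)

lemma pp_mul_le {w y u v : ℕ} (hu : u ≠ 0) (hv : v ≠ 0) : pp w y (u * v) ≤ pp w y u * pp w y v := by
  unfold pp
  rw [Nat.primeFactors_mul hu hv, Finset.filter_union, ← Finset.prod_union_inter]
  refine Nat.le_mul_of_pos_right _ (Finset.prod_pos fun p hp => ?_)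
  exact (Nat.prime_of_mem_primeFactors (mem_filter.1 (mem_inter.1 hp).1).1).pos

lemma bad_cases {T w y M0 u v : ℕ} {ρ : ℝ} (hu : 0 < u) (hv : 0 < v) (hM0 : 1 ≤ M0)
    (h : Bad T w y M0 ρ u v) :
    (T : ℝ) < ρ * u ∨ (∃ p ∈ Pr w y, p ^ 2 ∣ u) ∨ (∃ p ∈ Pr w y, p ^ 2 ∣ v) ∨
      (∃ p ∈ Pr w y, p ∣ u ∧ p ∣ v) ∨ (∃ d ∈ DS w y M0, d ∣ u) ∨ (∃ d ∈ DS w y M0, d ∣ v) := by
  rcases h with ⟨p, hp, h1, h2, h3⟩ | h | h
  · have hpm : p ∈ Pr w y := mem_Pr.2 ⟨⟨h1, h2⟩, hp⟩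
    by_cases hpu : p ∣ u
    · by_cases hpv : p ∣ v
      · exact Or.inr (Or.inr (Or.inr (Or.inl ⟨p, hpm, hpu, hpv⟩)))
      · refine Or.inr (Or.inl ⟨p, hpm, ?_⟩)
        exact Nat.Coprime.dvd_of_dvd_mul_right
          (Nat.Coprime.pow_left 2 ((Nat.Prime.coprime_iff_not_dvd hp).2 hpv)) h3
    · refine Or.inr (Or.inr (Or.inl ⟨p, hpm, ?_⟩))
      exact Nat.Coprime.dvd_of_dvd_mul_left
          (Nat.Coprime.pow_left 2 ((Nat.Prime.coprime_iff_not_dvd hp).2 hpu)) h3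
  · have h1 := lt_of_lt_of_le h (pp_mul_le hu.ne' hv.ne')
    by_cases hc : M0 < pp w y u ^ 2
    · exact Or.inr (Or.inr (Or.inr (Or.inr (Or.inl (exists_DS hM0 hc)))))
    · by_cases hc' : M0 < pp w y v ^ 2
      · exact Or.inr (Or.inr (Or.inr (Or.inr (Or.inr (exists_DS hM0 hc')))))
      · exfalso
        push Not at hc hc'
        have : (pp w y u * pp w y v) ^ 2 ≤ M0 ^ 2 := by
          rw [mul_pow, sq M0]
          exact Nat.mul_le_mul hc hc'
        exact absurd (lt_of_lt_of_le h1 ((Nat.pow_le_pow_iff_left (by norm_num)).1 this)) (lt_irrefl _)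
  · exact Or.inl h

/-- `n ^ δ / φ(n)` -/
def gA (δ : ℝ) : ArithmeticFunction ℝ := ⟨fun n => (n : ℝ) ^ δ / (Nat.totient n : ℝ), by simp⟩

lemma gA_apply (δ : ℝ) (n : ℕ) : gA δ n = (n : ℝ) ^ δ / (Nat.totient n : ℝ) := rfl

lemma gA_mult (δ : ℝ) : (gA δ).IsMultiplicative := by
  refine ⟨?_, ?_⟩
  · simp [gA_apply]
  · intro m n h
    rw [gA_apply, gA_apply, gA_apply, Nat.totient_mul h, Nat.cast_mul,
      Real.mul_rpow (Nat.cast_nonneg _) (Nat.cast_nonneg _)]
    push_cast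
    rw [mul_div_mul_comm]

lemma sum_gA (δ : ℝ) (w y : ℕ) :
    ∑ d ∈ (PP w y).divisors, gA δ d = ∏ p ∈ Pr w y, (1 + gA δ p) := by
  rw [← PP_primeFactors, (gA_mult δ).prodPrimeFactors_one_add_of_squarefree (PP_squarefree w y)]

lemma prod_bound {w y : ℕ} (hy : 3 ≤ y) :
    ∏ p ∈ Pr w y, (1 + gA (1 / Real.log y) p) ≤ (VW w y)⁻¹ ^ 3 := by
  have h0 : VW w y = ∏ p ∈ Pr w y, (1 - 1 / (p : ℝ)) := rfl
  rw [h0, ← Finset.prod_inv_distrib, ← Finset.prod_pow]
  have hly : 0 < Real.log y := Real.log_pos (by exact_mod_cast (by omega : 1 < y))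
  refine Finset.prod_le_prod (fun p _ => ?_) (fun p hp => ?_)
  · have : 0 ≤ gA (1 / Real.log y) p := by rw [gA_apply]; positivity
    linarith
  · have hpp := Pr_prime hp
    have hpy := (mem_Pr.1 hp).1.2
    have hp2 : (2 : ℝ) ≤ p := by exact_mod_cast hpp.two_le
    have hp0 : (0 : ℝ) < p := by linarith
    have hp1 : (0 : ℝ) < (p : ℝ) - 1 := by linarith
    have h1 : (p : ℝ) ^ (1 / Real.log y) ≤ 3 := by
      calc (p : ℝ) ^ (1 / Real.log y) ≤ (y : ℝ) ^ (1 / Real.log y) :=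
            Real.rpow_le_rpow hp0.le (by exact_mod_cast hpy) (by positivity)
        _ = Real.exp 1 := by
            rw [Real.rpow_def_of_pos (by exact_mod_cast (by omega : 0 < y))]
            congr 1
            field_simp
        _ ≤ 3 := by have := Real.exp_one_lt_d9; linarith
    have h2 : (Nat.totient p : ℝ) = (p : ℝ) - 1 := by
      rw [Nat.totient_prime hpp, Nat.cast_sub hpp.one_le, Nat.cast_one]
    rw [gA_apply, h2]
    have h3 : (1 - 1 / (p : ℝ))⁻¹ = 1 + 1 / ((p : ℝ) - 1) := by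
      field_simp
      ring
    rw [h3]
    have h4 : (p : ℝ) ^ (1 / Real.log y) / ((p : ℝ) - 1) ≤ 3 * (1 / ((p : ℝ) - 1)) := by
      rw [mul_one_div]
      exact div_le_div_of_nonneg_right h1 hp1.le
    have h5 : (0 : ℝ) < 1 / ((p : ℝ) - 1) := by positivity
    nlinarith [sq_nonneg (1 / ((p : ℝ) - 1)), pow_pos h5 3]

lemma DS_sum {w y M0 : ℕ} (hy : 3 ≤ y) (hM0 : 1 ≤ M0) :
    ∑ d ∈ DS w y M0, 1 / (Nat.totient d : ℝ) ≤
      Real.exp (-(Real.log M0 / (2 * Real.log y))) * (VW w y)⁻¹ ^ 3 := by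
  have hly : 0 < Real.log y := Real.log_pos (by exact_mod_cast (by omega : 1 < y))
  have hM : (0 : ℝ) < M0 := by exact_mod_cast hM0
  refine le_trans ?_ (mul_le_mul_of_nonneg_left (prod_bound hy) (Real.exp_pos _).le)
  rw [← sum_gA, Finset.mul_sum]
  refine le_trans (Finset.sum_le_sum fun d hd => ?_) (Finset.sum_le_sum_of_subset_of_nonneg
    (filter_subset _ _) fun d _ _ => ?_)
  rotate_left
  · exact mul_nonneg (Real.exp_pos _).le (by rw [gA_apply]; positivity)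
  · have hd2 := (mem_filter.1 hd).2.1
    have hd0 : 0 < d := by
      rcases Nat.eq_zero_or_pos d with h | h
      · subst h; simp at hd2
      · exact h
    have hdr : (0 : ℝ) < d := by exact_mod_cast hd0
    rw [gA_apply, ← mul_div_assoc]
    refine div_le_div_of_nonneg_right ?_ (Nat.cast_nonneg _)
    rw [Real.rpow_def_of_pos hdr, ← Real.exp_add]
    refine Real.one_le_exp ?_
    have h1 : Real.log M0 ≤ 2 * Real.log d := by
      have : Real.log M0 ≤ Real.log ((d : ℝ) ^ 2) :=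
        Real.log_le_log hM (by exact_mod_cast hd2.le)
      rwa [Real.log_pow, Nat.cast_ofNat] at this
    have h2 : -(Real.log M0 / (2 * Real.log y)) + Real.log d * (1 / Real.log y) =
        (2 * Real.log d - Real.log M0) / (2 * Real.log y) := by
      field_simp
      ring
    rw [h2]
    exact div_nonneg (by linarith) (by positivity)

lemma sum_inv_sq {w y : ℕ} (hw : 1 ≤ w) :
    ∑ p ∈ Pr w y, 1 / (p : ℝ) ^ 2 ≤ 1 / (w : ℝ) := by
  have h1 : ∑ p ∈ Pr w y, 1 / (p : ℝ) ^ 2 ≤ ∑ p ∈ Ioc w y, 1 / (p : ℝ) ^ 2 :=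
    Finset.sum_le_sum_of_subset_of_nonneg (filter_subset _ _) fun _ _ _ => by positivity
  refine h1.trans ?_
  have h2 : ∀ y : ℕ, w ≤ y → ∑ p ∈ Ioc w y, 1 / (p : ℝ) ^ 2 ≤ 1 / (w : ℝ) - 1 / (y : ℝ) := by
    intro y hy
    induction y, hy using Nat.le_induction with
    | base => simp
    | succ n hn ih =>
      rw [Finset.sum_Ioc_succ_top hn]
      have hn0 : (0 : ℝ) < n := by exact_mod_cast (by omega : 0 < n)
      have : 1 / ((n + 1 : ℕ) : ℝ) ^ 2 ≤ 1 / (n : ℝ) - 1 / ((n + 1 : ℕ) : ℝ) := by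
        push_cast
        rw [div_sub_div _ _ hn0.ne' (by positivity), div_le_div_iff₀ (by positivity) (by positivity)]
        nlinarith
      linarith
  rcases le_or_gt w y with h | h
  · refine (h2 y h).trans ?_
    have : (0 : ℝ) ≤ 1 / (y : ℝ) := by positivity
    linarith
  · rw [Finset.Ioc_eq_empty (by omega)]
    simp

/-- the sum over the multiples -/
def G (T Y : ℕ) (N : ℕ → ℕ → ℝ) (d1 d2 : ℕ) : ℝ :=
  ∑ u ∈ Icc 1 T, ∑ v ∈ Icc 1 Y, if d1 ∣ u ∧ d2 ∣ v then N u v else 0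

open Classical in
lemma bad_pointwise {T w y M0 : ℕ} {ρ : ℝ} (hM0 : 1 ≤ M0) (N : ℕ → ℕ → ℝ) (hN : ∀ u v, 0 ≤ N u v)
    (u v : ℕ) (hu : 0 < u) (hv : 0 < v) :
    (if Bad T w y M0 ρ u v then N u v else 0) ≤
      (if (T : ℝ) < ρ * u then N u v else 0) +
      (∑ p ∈ Pr w y, (if p ^ 2 ∣ u ∧ 1 ∣ v then N u v else 0) +
       ∑ p ∈ Pr w y, (if 1 ∣ u ∧ p ^ 2 ∣ v then N u v else 0) +
       ∑ p ∈ Pr w y, (if p ∣ u ∧ p ∣ v then N u v else 0)) +
      (∑ d ∈ DS w y M0, (if d ∣ u ∧ 1 ∣ v then N u v else 0) +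
       ∑ d ∈ DS w y M0, (if 1 ∣ u ∧ d ∣ v then N u v else 0)) := by
  have hn := hN u v
  have e0 : 0 ≤ (if (T : ℝ) < ρ * u then N u v else 0) := by split_ifs <;> simp [hn]
  have e1 : 0 ≤ ∑ p ∈ Pr w y, (if p ^ 2 ∣ u ∧ 1 ∣ v then N u v else 0) :=
    Finset.sum_nonneg fun _ _ => by split_ifs <;> simp [hn]
  have e2 : 0 ≤ ∑ p ∈ Pr w y, (if 1 ∣ u ∧ p ^ 2 ∣ v then N u v else 0) :=
    Finset.sum_nonneg fun _ _ => by split_ifs <;> simp [hn]
  have e3 : 0 ≤ ∑ p ∈ Pr w y, (if p ∣ u ∧ p ∣ v then N u v else 0) :=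
    Finset.sum_nonneg fun _ _ => by split_ifs <;> simp [hn]
  have e4 : 0 ≤ ∑ d ∈ DS w y M0, (if d ∣ u ∧ 1 ∣ v then N u v else 0) :=
    Finset.sum_nonneg fun _ _ => by split_ifs <;> simp [hn]
  have e5 : 0 ≤ ∑ d ∈ DS w y M0, (if 1 ∣ u ∧ d ∣ v then N u v else 0) :=
    Finset.sum_nonneg fun _ _ => by split_ifs <;> simp [hn]
  by_cases hb : Bad T w y M0 ρ u v
  · rw [if_pos hb]
    rcases bad_cases hu hv hM0 hb with h | ⟨p, hp, h⟩ | ⟨p, hp, h⟩ | ⟨p, hp, h⟩ | ⟨d, hd, h⟩ | ⟨d, hd, h⟩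
    · rw [if_pos h]; linarith
    · have := Finset.single_le_sum (f := fun p => if p ^ 2 ∣ u ∧ 1 ∣ v then N u v else 0)
        (fun _ _ => by split_ifs <;> simp [hn]) hp
      rw [if_pos ⟨h, one_dvd _⟩] at this
      linarith
    · have := Finset.single_le_sum (f := fun p => if 1 ∣ u ∧ p ^ 2 ∣ v then N u v else 0)
        (fun _ _ => by split_ifs <;> simp [hn]) hp
      rw [if_pos ⟨one_dvd _, h⟩] at this
      linarith
    · have := Finset.single_le_sum (f := fun p => if p ∣ u ∧ p ∣ v then N u v else 0)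
        (fun _ _ => by split_ifs <;> simp [hn]) hp
      rw [if_pos h] at this
      linarith
    · have := Finset.single_le_sum (f := fun d => if d ∣ u ∧ 1 ∣ v then N u v else 0)
        (fun _ _ => by split_ifs <;> simp [hn]) hd
      rw [if_pos ⟨h, one_dvd _⟩] at this
      linarith
    · have := Finset.single_le_sum (f := fun d => if 1 ∣ u ∧ d ∣ v then N u v else 0)
        (fun _ _ => by split_ifs <;> simp [hn]) hd
      rw [if_pos ⟨one_dvd _, h⟩] at this
      linarith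
  · rw [if_neg hb]; linarith

lemma sum3_comm (T Y : ℕ) (s : Finset ℕ) (f : ℕ → ℕ → ℕ → ℝ) :
    ∑ u ∈ Icc 1 T, ∑ v ∈ Icc 1 Y, ∑ p ∈ s, f p u v = ∑ p ∈ s, ∑ u ∈ Icc 1 T, ∑ v ∈ Icc 1 Y, f p u v := by
  rw [Finset.sum_comm' (s := s) (t := fun _ => Icc 1 T) (t' := Icc 1 T) (s' := fun _ => s) (by simp)]
  exact Finset.sum_congr rfl fun u _ => Finset.sum_comm

open Classical in
lemma bad_sum {T Y w y M0 : ℕ} {ρ : ℝ} (hM0 : 1 ≤ M0) (N : ℕ → ℕ → ℝ) (hN : ∀ u v, 0 ≤ N u v) :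
    ∑ u ∈ Icc 1 T, ∑ v ∈ Icc 1 Y, (if Bad T w y M0 ρ u v then N u v else 0) ≤
      (∑ u ∈ Icc 1 T, ∑ v ∈ Icc 1 Y, if (T : ℝ) < ρ * u then N u v else 0) +
      (∑ p ∈ Pr w y, G T Y N (p ^ 2) 1 + ∑ p ∈ Pr w y, G T Y N 1 (p ^ 2) + ∑ p ∈ Pr w y, G T Y N p p) +
      (∑ d ∈ DS w y M0, G T Y N d 1 + ∑ d ∈ DS w y M0, G T Y N 1 d) := by
  refine (Finset.sum_le_sum fun u hu => Finset.sum_le_sum fun v hv =>
    bad_pointwise hM0 N hN u v (mem_Icc.1 hu).1 (mem_Icc.1 hv).1).trans ?_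
  simp only [Finset.sum_add_distrib]
  unfold G
  rw [sum3_comm, sum3_comm, sum3_comm, sum3_comm, sum3_comm]

set_option maxHeartbeats 4000000 in
theorem t_BAD (h1 : ∀ c : ℤ, c ≠ 0 → S_U0 c) (h2 : S_MER) : ∀ c : ℤ, c ≠ 0 → S_BAD c := by
  intro c hc
  obtain ⟨C1, hC1, k1, B1, hU⟩ := h1 c hc
  obtain ⟨C2, hC2, hMER, _⟩ := h2
  have hlarge : ∃ B2 : ℕ, ∀ B : ℕ, B2 ≤ B → (2 * Real.log B) ^ 4 ≤ (B : ℝ) := by
    have h := (isLittleO_log_rpow_atTop (show (0 : ℝ) < 1 / 4 by norm_num)).bound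
      (show (0 : ℝ) < 1 / 2 by norm_num)
    obtain ⟨X0, hX0⟩ := Filter.eventually_atTop.1 h
    refine ⟨max 1 ⌈X0⌉₊, fun B hB => ?_⟩
    have hB1 : 1 ≤ B := le_trans (le_max_left _ _) hB
    have hBX : X0 ≤ (B : ℝ) := (Nat.le_ceil _).trans (by exact_mod_cast le_trans (le_max_right _ _) hB)
    have h3 := hX0 B hBX
    have hl : 0 ≤ Real.log B := Real.log_natCast_nonneg B
    rw [Real.norm_of_nonneg hl, Real.norm_of_nonneg (by positivity)] at h3
    have h4 : 2 * Real.log B ≤ (B : ℝ) ^ (1 / 4 : ℝ) := by linarith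
    calc (2 * Real.log B) ^ 4 ≤ ((B : ℝ) ^ (1 / 4 : ℝ)) ^ 4 := pow_le_pow_left₀ (by positivity) h4 4
      _ = B := by
        rw [← Real.rpow_natCast, ← Real.rpow_mul (Nat.cast_nonneg B)]
        norm_num
  obtain ⟨B2, hB2⟩ := hlarge
  have hl2 : 0 < Real.log 2 := Real.log_pos (by norm_num)
  refine ⟨3 + 8 * C1 + 2 * C1 * (C2 / Real.log 2) ^ 3, by positivity, 2 * k1, max (max B1 B2) 3, ?_⟩
  intro B hB z w y M0 T Y ρ hz hzB hw hwy hyB hM0 hM0B hBT hTB hBY hYB hρ1 hρ2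
  have hBB1 : B1 ≤ B := le_trans (le_trans (le_max_left _ _) (le_max_left _ _)) hB
  have hBB2 : B2 ≤ B := le_trans (le_trans (le_max_right _ _) (le_max_left _ _)) hB
  have hB3 : 3 ≤ B := le_trans (le_max_right _ _) hB
  have hU' := hU B hBB1
  have hlog4 := hB2 B hBB2
  have hlB : 1 ≤ Real.log B := by
    rw [Real.le_log_iff_exp_le (by positivity)]
    have h3 : (3 : ℝ) ≤ B := by exact_mod_cast hB3
    have := Real.exp_one_lt_d9
    linarith
  have hT1 : 1 ≤ T := by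
    rcases Nat.eq_zero_or_pos T with h | h
    · subst h; simp at hBT; omega
    · exact h
  have hY1 : 1 ≤ Y := by
    rcases Nat.eq_zero_or_pos Y with h | h
    · subst h; simp at hBY; omega
    · exact h
  set N : ℕ → ℕ → ℝ := fun u v => lz z ((u : ℤ) * v + c) with hN
  have hN0 : ∀ u v, 0 ≤ N u v := fun u v => lz_nonneg _ _
  have hzk : z ^ k1 ≤ B := (Nat.pow_le_pow_right (by omega) (by omega)).trans hzB
  have hTT : B ≤ T ^ 4 := hBT.trans (Nat.pow_le_pow_right hT1 (by norm_num))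
  have hYY : B ≤ Y ^ 4 := hBY.trans (Nat.pow_le_pow_right hY1 (by norm_num))
  have hTr : (0 : ℝ) < T := by exact_mod_cast hT1
  have hYr : (0 : ℝ) < Y := by exact_mod_cast hY1
  -- the sieve bound
  have hG : ∀ d1 d2 : ℕ, 1 ≤ d1 → 1 ≤ d2 → d1 ^ k1 ≤ B → d2 ^ k1 ≤ B →
      G T Y N d1 d2 ≤ C1 * ((T : ℝ) * Y) / ((Nat.totient d1 : ℝ) * Nat.totient d2) := by
    intro d1 d2 hd1 hd2 hd1B hd2B
    have := hU' z d1 d2 0 T 0 Y hz hzk hd1 hd2 hd1B hd2B (Nat.zero_le _) (by simpa using hTT) hTB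
      (Nat.zero_le _) (by simpa using hYY) hYB
    simp only [Nat.cast_zero, sub_zero] at this
    refine le_trans (le_of_eq ?_) this
    have e1 : ∀ n : ℕ, Ioc 0 n = Icc 1 n := fun n => by ext; simp; omega
    unfold G
    rw [Finset.sum_filter, e1, e1]
    refine Finset.sum_congr rfl fun u _ => ?_
    by_cases hu : d1 ∣ u
    · rw [if_pos hu, Finset.sum_filter]
      refine Finset.sum_congr rfl fun v _ => ?_
      simp [hu, hN]
    · rw [if_neg hu]
      refine Finset.sum_eq_zero fun v _ => ?_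
      simp [hu]
  -- the part (3)
  have hS3 : (∑ u ∈ Icc 1 T, ∑ v ∈ Icc 1 Y, if (T : ℝ) < ρ * u then N u v else 0) ≤
      2 * C1 * (ρ - 1) * ((T : ℝ) * Y) := by
    have hρ0 : 0 < ρ := by
      have : 0 < 1 / Real.log B := by positivity
      linarith
    set n := ⌊(T : ℝ) / ρ⌋₊ with hn
    have hnT : n ≤ T := by
      have h1 : (T : ℝ) / ρ ≤ T := by
        rw [div_le_iff₀ hρ0]
        have : 0 < 1 / Real.log B := by positivity
        nlinarith
      exact_mod_cast (Nat.floor_le (by positivity)).trans h1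
    have hn1 : (n : ℝ) ≤ T / ρ := Nat.floor_le (by positivity)
    have hn2 : (T : ℝ) / ρ < n + 1 := Nat.lt_floor_add_one _
    have hdiff : (T : ℝ) / (2 * Real.log B) ≤ (T : ℝ) - n := by
      have h3 : (T : ℝ) / ρ ≤ T - T / (2 * Real.log B) := by
        rw [div_le_iff₀ hρ0]
        have h4 : (T : ℝ) - T / (2 * Real.log B) = T * (1 - 1 / (2 * Real.log B)) := by ring
        rw [h4, mul_assoc]
        refine le_mul_of_one_le_right hTr.le ?_
        have h5 : 1 / Real.log B ≤ ρ - 1 := by linarith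
        have h6 : 1 / (2 * Real.log B) = (1 / Real.log B) / 2 := by field_simp
        rw [h6]
        set e := 1 / Real.log B
        have he0 : 0 < e := by positivity
        nlinarith
      linarith
    have hB4 : B ≤ (T - n) ^ 4 := by
      have h3 : (B : ℝ) ≤ ((T : ℝ) / (2 * Real.log B)) ^ 4 := by
        rw [div_pow, le_div_iff₀ (by positivity)]
        have h4 : (B : ℝ) ≤ (T : ℝ) ^ 2 := by exact_mod_cast hBT
        calc (B : ℝ) * (2 * Real.log B) ^ 4 ≤ B * B := by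
              exact mul_le_mul_of_nonneg_left hlog4 (Nat.cast_nonneg B)
          _ ≤ (T : ℝ) ^ 2 * (T : ℝ) ^ 2 := mul_le_mul h4 h4 (Nat.cast_nonneg B) (by positivity)
          _ = (T : ℝ) ^ 4 := by ring
      have h5 : (B : ℝ) ≤ (((T - n : ℕ) : ℝ)) ^ 4 := by
        rw [Nat.cast_sub hnT]
        exact h3.trans (pow_le_pow_left₀ (by positivity) hdiff 4)
      exact_mod_cast h5
    have h6 := hU' z 1 1 n T 0 Y hz hzk le_rfl le_rfl (by simp; omega) (by simp; omega) hnT hB4 hTB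
      (Nat.zero_le _) (by simpa using hYY) hYB
    have h7 : (∑ u ∈ Icc 1 T, ∑ v ∈ Icc 1 Y, if (T : ℝ) < ρ * u then N u v else 0) ≤
        ∑ u ∈ (Ioc n T).filter (fun u => 1 ∣ u), ∑ v ∈ (Ioc 0 Y).filter (fun v => 1 ∣ v),
          lz z ((u : ℤ) * v + c) := by
      simp only [one_dvd, Finset.filter_true]
      have e1 : ∀ n : ℕ, Ioc 0 n = Icc 1 n := fun n => by ext; simp; omega
      rw [e1 Y]
      have h8 : (∑ u ∈ Icc 1 T, ∑ v ∈ Icc 1 Y, if (T : ℝ) < ρ * u then N u v else 0) =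
          ∑ u ∈ (Icc 1 T).filter (fun u : ℕ => (T : ℝ) < ρ * u), ∑ v ∈ Icc 1 Y, N u v := by
        rw [Finset.sum_filter]
        refine Finset.sum_congr rfl fun u _ => ?_
        by_cases hu : (T : ℝ) < ρ * u
        · simp [hu]
        · simp [hu]
      rw [h8]
      refine Finset.sum_le_sum_of_subset_of_nonneg (fun u hu => ?_) fun u _ _ =>
        Finset.sum_nonneg fun v _ => hN0 u v
      rw [mem_filter, mem_Icc] at hu
      rw [mem_Ioc]
      refine ⟨?_, hu.1.2⟩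
      have : (n : ℝ) < u := by
        refine hn1.trans_lt ?_
        rw [div_lt_iff₀ hρ0]
        linarith [hu.2]
      exact_mod_cast this
    refine h7.trans (h6.trans ?_)
    simp only [Nat.cast_zero, sub_zero, Nat.totient_one, Nat.cast_one, mul_one, div_one]
    have h9 : (T : ℝ) - n ≤ 2 * (ρ - 1) * T := by
      have h10 : (T : ℝ) - T / ρ ≤ (ρ - 1) * T := by
        rw [sub_le_comm, le_div_iff₀ hρ0]
        have : (T - (ρ - 1) * T) * ρ = T - T * (ρ - 1) ^ 2 := by ring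
        nlinarith [mul_nonneg hTr.le (sq_nonneg (ρ - 1))]
      have h11 : 1 ≤ (ρ - 1) * T := by
        have h12 : 1 / Real.log B ≤ ρ - 1 := by linarith
        have h13 : Real.log B ≤ T := by
          have h14 : Real.log B ^ 2 ≤ (T : ℝ) ^ 2 := by
            have h4 : (B : ℝ) ≤ (T : ℝ) ^ 2 := by exact_mod_cast hBT
            refine le_trans ?_ h4
            refine le_trans ?_ hlog4
            nlinarith [pow_le_pow_left₀ (by norm_num : (0:ℝ) ≤ 1) hlB 2]
          exact (pow_le_pow_iff_left₀ (by positivity) hTr.le (by norm_num)).1 h14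
        calc (1 : ℝ) = 1 / Real.log B * Real.log B := by field_simp
          _ ≤ (ρ - 1) * T := mul_le_mul h12 h13 (by positivity) (by
            have : 0 < 1 / Real.log B := by positivity
            linarith)
      linarith
    calc C1 * (((T : ℝ) - n) * Y) ≤ C1 * ((2 * (ρ - 1) * T) * Y) := by gcongr
      _ = 2 * C1 * (ρ - 1) * ((T : ℝ) * Y) := by ring
  -- the part (1)
  have hpB : ∀ p ∈ Pr w y, (p ^ 2) ^ k1 ≤ B ∧ p ^ k1 ≤ B := by
    intro p hp
    have h3 := mem_Pr.1 hp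
    have h4 : (p ^ 2) ^ k1 ≤ B := by
      rw [← pow_mul]
      exact (Nat.pow_le_pow_left h3.1.2 _).trans hyB
    refine ⟨h4, le_trans ?_ h4⟩
    exact Nat.pow_le_pow_left (Nat.le_self_pow (by norm_num) p) k1
  have h1B : 1 ^ k1 ≤ B := by simp; omega
  have hp1 : ∀ p ∈ Pr w y, G T Y N (p ^ 2) 1 ≤ 2 * C1 * ((T : ℝ) * Y) * (1 / (p : ℝ) ^ 2) ∧
      G T Y N 1 (p ^ 2) ≤ 2 * C1 * ((T : ℝ) * Y) * (1 / (p : ℝ) ^ 2) ∧
      G T Y N p p ≤ 4 * C1 * ((T : ℝ) * Y) * (1 / (p : ℝ) ^ 2) := by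
    intro p hp
    have hpp := Pr_prime hp
    have hp2 : (2 : ℝ) ≤ p := by exact_mod_cast hpp.two_le
    have hp0 : (0 : ℝ) < p := by linarith
    have hpm : (0 : ℝ) < (p : ℝ) - 1 := by linarith
    have ht1 : (Nat.totient p : ℝ) = (p : ℝ) - 1 := by
      rw [Nat.totient_prime hpp, Nat.cast_sub hpp.one_le, Nat.cast_one]
    have ht2 : (Nat.totient (p ^ 2) : ℝ) = (p : ℝ) * ((p : ℝ) - 1) := by
      rw [Nat.totient_prime_pow hpp (by norm_num), Nat.cast_mul, Nat.cast_sub hpp.one_le]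
      simp
    have h5 : C1 * ((T : ℝ) * Y) / ((p : ℝ) * ((p : ℝ) - 1)) ≤ 2 * C1 * ((T : ℝ) * Y) * (1 / (p : ℝ) ^ 2) := by
      rw [mul_one_div, div_le_div_iff₀ (by positivity) (by positivity)]
      have h7 : 0 < C1 * ((T : ℝ) * Y) := by positivity
      have h8 : (p : ℝ) ^ 2 ≤ 2 * (p * (p - 1)) := by nlinarith
      nlinarith [mul_le_mul_of_nonneg_left h8 h7.le]
    refine ⟨?_, ?_, ?_⟩
    · have := hG (p ^ 2) 1 (Nat.one_le_pow _ _ hpp.pos) le_rfl (hpB p hp).1 h1B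
      rw [Nat.totient_one, Nat.cast_one, mul_one, ht2] at this
      exact this.trans h5
    · have := hG 1 (p ^ 2) le_rfl (Nat.one_le_pow _ _ hpp.pos) h1B (hpB p hp).1
      rw [Nat.totient_one, Nat.cast_one, one_mul, ht2] at this
      exact this.trans h5
    · have := hG p p hpp.one_le hpp.one_le (hpB p hp).2 (hpB p hp).2
      rw [ht1] at this
      refine this.trans ?_
      rw [mul_one_div, div_le_div_iff₀ (by positivity) (by positivity)]
      have h7 : 0 < C1 * ((T : ℝ) * Y) := by positivity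
      have h8 : (p : ℝ) ^ 2 ≤ 4 * ((p - 1) * (p - 1)) := by nlinarith
      nlinarith [mul_le_mul_of_nonneg_left h8 h7.le]
  have hsum1 : ∑ p ∈ Pr w y, G T Y N (p ^ 2) 1 + ∑ p ∈ Pr w y, G T Y N 1 (p ^ 2) +
      ∑ p ∈ Pr w y, G T Y N p p ≤ 8 * C1 * ((T : ℝ) * Y) * (1 / w) := by
    have hs := sum_inv_sq (w := w) (y := y) (by omega)
    have a1 := Finset.sum_le_sum fun p hp => (hp1 p hp).1
    have a2 := Finset.sum_le_sum fun p hp => (hp1 p hp).2.1
    have a3 := Finset.sum_le_sum fun p hp => (hp1 p hp).2.2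
    rw [← Finset.mul_sum] at a1 a2 a3
    have h7 : 0 < C1 * ((T : ℝ) * Y) := by positivity
    have h8 := mul_le_mul_of_nonneg_left hs h7.le
    nlinarith
  -- the part (2)
  have hsum2 : ∑ d ∈ DS w y M0, G T Y N d 1 + ∑ d ∈ DS w y M0, G T Y N 1 d ≤
      2 * C1 * (C2 / Real.log 2) ^ 3 * ((T : ℝ) * Y) *
        (Real.log y ^ (3 + 8 * C1 + 2 * C1 * (C2 / Real.log 2) ^ 3) *
          Real.exp (-(Real.log M0 / (2 * Real.log y)))) := by
    rcases Nat.lt_or_ge y 3 with hy3 | hy3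
    · -- nothing
      have hDS : DS w y M0 = ∅ := by
        have hyw : w = y := by omega
        subst hyw
        unfold DS
        have : PP w w = 1 := by simp [PP]
        rw [this, Finset.filter_eq_empty_iff]
        intro d hd
        rw [Nat.divisors_one, mem_singleton] at hd
        subst hd
        omega
      rw [hDS]
      simp only [Finset.sum_empty, add_zero]
      have hly : 0 ≤ Real.log y := Real.log_natCast_nonneg y
      positivity
    · have hly1 : 1 ≤ Real.log y := by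
        rw [Real.le_log_iff_exp_le (by exact_mod_cast (by omega : 0 < y))]
        have h3 : (3 : ℝ) ≤ y := by exact_mod_cast hy3
        have := Real.exp_one_lt_d9
        linarith
      have hdB : ∀ d ∈ DS w y M0, 1 ≤ d ∧ d ^ k1 ≤ B := by
        intro d hd
        have h3 := (mem_filter.1 hd).2
        refine ⟨?_, ?_⟩
        · rcases Nat.eq_zero_or_pos d with h | h
          · subst h; simp at h3
          · exact h
        · have h4 : (d ^ k1) ^ 2 ≤ B ^ 2 := by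
            calc (d ^ k1) ^ 2 = (d ^ 2) ^ k1 := by rw [← pow_mul, ← pow_mul, mul_comm]
              _ ≤ (M0 * y ^ 2) ^ k1 := Nat.pow_le_pow_left h3.2 _
              _ = M0 ^ k1 * y ^ (2 * k1) := by rw [mul_pow, ← pow_mul]
              _ ≤ B * B := Nat.mul_le_mul ((Nat.pow_le_pow_right hM0 (by omega)).trans hM0B) hyB
              _ = B ^ 2 := (sq B).symm
          exact (Nat.pow_le_pow_iff_left (by norm_num)).1 h4
      have b1 : ∑ d ∈ DS w y M0, G T Y N d 1 ≤ ∑ d ∈ DS w y M0, C1 * ((T : ℝ) * Y) * (1 / (Nat.totient d : ℝ)) := by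
        refine Finset.sum_le_sum fun d hd => ?_
        have := hG d 1 (hdB d hd).1 le_rfl (hdB d hd).2 h1B
        rw [Nat.totient_one, Nat.cast_one, mul_one] at this
        rwa [mul_one_div]
      have b2 : ∑ d ∈ DS w y M0, G T Y N 1 d ≤ ∑ d ∈ DS w y M0, C1 * ((T : ℝ) * Y) * (1 / (Nat.totient d : ℝ)) := by
        refine Finset.sum_le_sum fun d hd => ?_
        have := hG 1 d le_rfl (hdB d hd).1 h1B (hdB d hd).2
        rw [Nat.totient_one, Nat.cast_one, one_mul] at this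
        rwa [mul_one_div]
      rw [← Finset.mul_sum] at b1 b2
      have b3 := DS_sum (w := w) hy3 hM0
      have b4 : (VW w y)⁻¹ ≤ C2 / Real.log 2 * Real.log y := by
        refine (hMER w y hw hwy).2.trans ?_
        have hlw : Real.log 2 ≤ Real.log w := Real.log_le_log (by norm_num) (by exact_mod_cast hw)
        have hlw0 : 0 < Real.log w := by linarith
        calc C2 * (Real.log y / Real.log w) ≤ C2 * (Real.log y / Real.log 2) := by gcongr
          _ = C2 / Real.log 2 * Real.log y := by ring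
      have b5 : (VW w y)⁻¹ ^ 3 ≤ (C2 / Real.log 2) ^ 3 * Real.log y ^ (3 + 8 * C1 + 2 * C1 * (C2 / Real.log 2) ^ 3) := by
        calc (VW w y)⁻¹ ^ 3 ≤ (C2 / Real.log 2 * Real.log y) ^ 3 :=
              pow_le_pow_left₀ (inv_nonneg.2 (VW_pos w y).le) b4 3
          _ = (C2 / Real.log 2) ^ 3 * Real.log y ^ (3 : ℝ) := by
              rw [mul_pow]
              congr 1
              norm_cast
          _ ≤ _ := by
              refine mul_le_mul_of_nonneg_left ?_ (by positivity)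
              refine Real.rpow_le_rpow_of_exponent_le hly1 ?_
              have : 0 ≤ 8 * C1 + 2 * C1 * (C2 / Real.log 2) ^ 3 := by positivity
              linarith
      have b6 : ∑ d ∈ DS w y M0, 1 / (Nat.totient d : ℝ) ≤
          (C2 / Real.log 2) ^ 3 * (Real.log y ^ (3 + 8 * C1 + 2 * C1 * (C2 / Real.log 2) ^ 3) *
            Real.exp (-(Real.log M0 / (2 * Real.log y)))) := by
        refine b3.trans ?_
        refine (mul_le_mul_of_nonneg_left b5 (Real.exp_pos _).le).trans (le_of_eq ?_)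
        ring
      have h7 : 0 < C1 * ((T : ℝ) * Y) := by positivity
      have h8 := mul_le_mul_of_nonneg_left b6 h7.le
      refine le_trans (b := 2 * (C1 * ((T : ℝ) * Y) * ∑ d ∈ DS w y M0, 1 / (Nat.totient d : ℝ))) (by linarith) ?_
      refine (mul_le_mul_of_nonneg_left h8 (by norm_num : (0 : ℝ) ≤ 2)).trans (le_of_eq ?_)
      ring
  -- the end
  have hfin := bad_sum (T := T) (Y := Y) (w := w) (y := y) (M0 := M0) (ρ := ρ) hM0 N hN0
  refine hfin.trans ?_
  have hE : 0 ≤ Real.log y ^ (3 + 8 * C1 + 2 * C1 * (C2 / Real.log 2) ^ 3) *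
      Real.exp (-(Real.log M0 / (2 * Real.log y))) := by
    have hly : 0 ≤ Real.log y := Real.log_natCast_nonneg y
    positivity
  have hρ0 : 0 ≤ ρ - 1 := by
    have : 0 < 1 / Real.log B := by positivity
    linarith
  have hw0 : (0 : ℝ) ≤ 1 / w := by positivity
  have hTY : (0 : ℝ) < (T : ℝ) * Y := by positivity
  set E := Real.log y ^ (3 + 8 * C1 + 2 * C1 * (C2 / Real.log 2) ^ 3) *
      Real.exp (-(Real.log M0 / (2 * Real.log y))) with hEdef
  set K := (C2 / Real.log 2) ^ 3 with hK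
  have hK0 : 0 ≤ K := by positivity
  have c1 : 0 ≤ ((T : ℝ) * Y) * (1 / w) := by positivity
  have c2 : 0 ≤ ((T : ℝ) * Y) * (ρ - 1) := by positivity
  have c3 : 0 ≤ ((T : ℝ) * Y) * E := by positivity
  have d1 : 0 ≤ (3 + 2 * C1 * K) * (((T : ℝ) * Y) * (1 / w)) := by positivity
  have d2 : 0 ≤ (3 + 6 * C1 + 2 * C1 * K) * (((T : ℝ) * Y) * (ρ - 1)) := by positivity
  have d3 : 0 ≤ (3 + 8 * C1) * (((T : ℝ) * Y) * E) := by positivity
  have key : (3 + 8 * C1 + 2 * C1 * K) * ((T : ℝ) * Y) * (1 / w + (ρ - 1) + E) =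
      2 * C1 * (ρ - 1) * ((T : ℝ) * Y) + 8 * C1 * ((T : ℝ) * Y) * (1 / w) +
        2 * C1 * K * ((T : ℝ) * Y) * E +
      ((3 + 2 * C1 * K) * (((T : ℝ) * Y) * (1 / w)) +
        (3 + 6 * C1 + 2 * C1 * K) * (((T : ℝ) * Y) * (ρ - 1)) +
        (3 + 8 * C1) * (((T : ℝ) * Y) * E)) := by ring
  rw [key]
  linarith

end

end Pool.Agent.N630.QL
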